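import Pool.Agent.Helper80.EC_F.Goals

/-! Packet SUMT of MP_ecc237 Part F (helper80). -/

set_option autoImplicit false

open MeasureTheory Filter Topology Set

namespace EC237.PF.PkSUMT

theorem exp_le (x : ℝ) (hx : 0 < x) (k : ℕ) : Real.exp (-x) ≤ k.factorial / x ^ k := by
  have h1 := Real.pow_div_factorial_le_exp x hx.le k
  rw [Real.exp_neg, inv_eq_one_div, div_le_div_iff₀ (Real.exp_pos _) (by positivity), one_mul]
  rw [div_le_iff₀ (by positivity)] at h1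
  linarith

theorem summable_base : Summable (fun p : ℕ × ℕ => (1 / ((p.1:ℝ) + 1) ^ 2) *
    (1 / ((p.2:ℝ) + 1) ^ 2)) := by
  have h1 : Summable (fun n : ℕ => 1 / ((n:ℝ) + 1) ^ 2) := by
    have := (summable_nat_add_iff 1).2 (Real.summable_one_div_nat_pow.2 (one_lt_two))
    simpa using this
  exact h1.mul_of_nonneg h1 (fun n => by positivity) (fun n => by positivity)

/-- A family dominated by `A (MN)^6 e^{-cMN}` is summable. -/
theorem summable_of_bound (f : ℕ × ℕ → ℝ) (A c : ℝ) (hc : 0 < c)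
    (h : ∀ p, |f p| ≤ A * ((((p.1:ℝ) + 1) * ((p.2:ℝ) + 1)) ^ 6 *
      Real.exp (-(c * (((p.1:ℝ) + 1) * ((p.2:ℝ) + 1)))))) : Summable f := by
  have hA : 0 ≤ A := by
    have h0 := (abs_nonneg _).trans (h (0, 0))
    by_contra hneg
    push Not at hneg
    have hpos : 0 < (((((0, 0) : ℕ × ℕ).1:ℝ) + 1) * ((((0, 0) : ℕ × ℕ).2:ℝ) + 1)) ^ 6 *
      Real.exp (-(c * (((((0, 0) : ℕ × ℕ).1:ℝ) + 1) * ((((0, 0) : ℕ × ℕ).2:ℝ) + 1)))) := by
      positivity
    have := mul_neg_of_neg_of_pos hneg hpos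
    linarith
  refine Summable.of_norm_bounded (g := fun p : ℕ × ℕ => A * (((8:ℕ).factorial : ℝ) / c ^ 8) *
    ((1 / ((p.1:ℝ) + 1) ^ 2) * (1 / ((p.2:ℝ) + 1) ^ 2))) (summable_base.mul_left _) ?_
  intro p
  rw [Real.norm_eq_abs]
  refine (h p).trans ?_
  rw [mul_assoc]
  refine mul_le_mul_of_nonneg_left ?_ hA
  set X : ℝ := ((p.1:ℝ) + 1) * ((p.2:ℝ) + 1) with hX
  have hXpos : 0 < X := by rw [hX]; positivity
  have h1 := exp_le (c * X) (by positivity) 8
  have h2 : X ^ 6 * Real.exp (-(c * X)) ≤ X ^ 6 * (((8:ℕ).factorial : ℝ) / (c * X) ^ 8) :=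
    mul_le_mul_of_nonneg_left h1 (by positivity)
  refine h2.trans (le_of_eq ?_)
  have h3 : (1 / ((p.1:ℝ) + 1) ^ 2) * (1 / ((p.2:ℝ) + 1) ^ 2) = 1 / X ^ 2 := by
    rw [hX, mul_pow]
    field_simp
  rw [h3]
  field_simp

theorem abs_sn (p : ℕ × ℕ) : |sn p| ≤ 1 := by
  unfold sn
  rw [abs_mul, abs_pow, abs_neg, abs_one, one_pow, one_mul]
  exact Real.abs_sin_le_one _

theorem abs_chi (m : ℤ) : |chi m| ≤ 1 := by
  unfold chi
  split_ifs <;> simp

theorem abs_sgn2 (p : ℕ × ℕ) : |sgn2 p| = 1 := by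
  unfold sgn2
  rw [abs_pow, abs_neg, abs_one, one_pow]

theorem one_le_X (p : ℕ × ℕ) : 1 ≤ (p.1:ℝ) + 1 ∧ 1 ≤ (p.2:ℝ) + 1 := by
  constructor
  · have : (0:ℝ) ≤ (p.1:ℝ) := Nat.cast_nonneg _
    linarith
  · have : (0:ℝ) ≤ (p.2:ℝ) := Nat.cast_nonneg _
    linarith

theorem sum_tM0 (y : ℝ) (hy : 0 < y) : Summable (tM0 y) := by
  refine summable_of_bound _ (Real.pi ^ 2 / (9 * y)) (Real.pi / (3 * y)) (by positivity) ?_
  intro p
  obtain ⟨hM, hN⟩ := one_le_X p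
  unfold tM0
  set M : ℝ := (p.1:ℝ) + 1 with hMd
  set N : ℝ := (p.2:ℝ) + 1 with hNd
  have e1 : -(Real.pi * M * N / (3 * y)) = -(Real.pi / (3 * y) * (M * N)) := by
    field_simp
  rw [e1, abs_mul, abs_of_pos (show 0 < Real.pi ^ 2 / (9 * y) by positivity), abs_mul,
    abs_of_pos (Real.exp_pos _), abs_mul]
  refine mul_le_mul_of_nonneg_left ?_ (by positivity)
  refine mul_le_mul_of_nonneg_right ?_ (Real.exp_pos _).le
  have h1 : |M / N| ≤ (M * N) ^ 6 := by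
    rw [abs_of_pos (by positivity)]
    have h2 : M / N ≤ M := div_le_self (by linarith) hN
    have h3 : M ≤ M * N := le_mul_of_one_le_right (by linarith) hN
    have h4 : M * N ≤ (M * N) ^ 6 := le_self_pow₀ (by nlinarith) (by norm_num)
    linarith
  calc |sn p| * |M / N| ≤ 1 * |M / N| := mul_le_mul_of_nonneg_right (abs_sn p) (abs_nonneg _)
    _ ≤ (M * N) ^ 6 := by rw [one_mul]; exact h1

theorem sum_tM2 (y : ℝ) (hy : 0 < y) : Summable (tM2 y) := by
  refine summable_of_bound _ (Real.pi ^ 3 / (4 * y) * (1 + Real.pi * y)) (Real.pi * y)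
    (by positivity) ?_
  intro p
  obtain ⟨hM, hN⟩ := one_le_X p
  unfold tM2 QQ
  set M : ℝ := (p.1:ℝ) + 1 with hMd
  set N : ℝ := (p.2:ℝ) + 1 with hNd
  have e1 : -(Real.pi * M * N * y) = -(Real.pi * y * (M * N)) := by ring
  rw [e1, abs_mul, abs_neg, abs_of_pos (show 0 < Real.pi ^ 3 / (4 * y) by positivity), abs_mul,
    abs_of_pos (Real.exp_pos _), abs_mul, abs_mul, abs_mul, abs_sgn2, mul_one,
    mul_assoc (Real.pi ^ 3 / (4 * y)) (1 + Real.pi * y)]
  refine mul_le_mul_of_nonneg_left ?_ (by positivity)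
  rw [← mul_assoc (1 + Real.pi * y)]
  refine mul_le_mul_of_nonneg_right ?_ (Real.exp_pos _).le
  have hMN : 1 ≤ M * N := by nlinarith
  have h1 : |N ^ 2 / M ^ 2| ≤ (M * N) ^ 2 := by
    rw [abs_of_pos (by positivity)]
    have h2 : N ^ 2 / M ^ 2 ≤ N ^ 2 := div_le_self (by positivity) (one_le_pow₀ hM)
    have h3 : N ^ 2 ≤ (M * N) ^ 2 :=
      pow_le_pow_left₀ (by linarith) (le_mul_of_one_le_left (by linarith) hM) 2
    linarith
  have h2 : |1 + Real.pi * M * N * y| ≤ (1 + Real.pi * y) * (M * N) := by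
    rw [abs_of_pos (by positivity)]
    nlinarith [Real.pi_pos]
  have h3 : |chi ((p.1:ℤ) + 1)| * |N ^ 2 / M ^ 2| ≤ (M * N) ^ 2 := by
    calc |chi ((p.1:ℤ) + 1)| * |N ^ 2 / M ^ 2| ≤ 1 * |N ^ 2 / M ^ 2| :=
        mul_le_mul_of_nonneg_right (abs_chi _) (abs_nonneg _)
      _ ≤ (M * N) ^ 2 := by rw [one_mul]; exact h1
  calc |chi ((p.1:ℤ) + 1)| * |N ^ 2 / M ^ 2| * |1 + Real.pi * M * N * y|
      ≤ (M * N) ^ 2 * ((1 + Real.pi * y) * (M * N)) :=
        mul_le_mul h3 h2 (abs_nonneg _) (by positivity)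
    _ = (1 + Real.pi * y) * (M * N) ^ 3 := by ring
    _ ≤ (1 + Real.pi * y) * (M * N) ^ 6 := by
        refine mul_le_mul_of_nonneg_left (pow_le_pow_right₀ hMN (by norm_num)) (by positivity)

theorem sum_tE (z : ℝ) (hz : 0 < z) : Summable (tE z) := by
  refine summable_of_bound _ (Real.pi ^ 2 * z / 9 *
    (1 + Real.pi * z / 3 + (Real.pi * z / 3) ^ 2)) (Real.pi * z / 3) (by positivity) ?_
  intro p
  obtain ⟨hM, hN⟩ := one_le_X p
  unfold tE
  set M : ℝ := (p.1:ℝ) + 1 with hMd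
  set N : ℝ := (p.2:ℝ) + 1 with hNd
  have e1 : -(Real.pi * M * z / 3 * N) = -(Real.pi * z / 3 * (M * N)) := by ring
  rw [e1, abs_mul, abs_of_pos (show 0 < Real.pi ^ 2 * z / 9 by positivity), abs_mul,
    abs_of_pos (Real.exp_pos _), abs_mul, abs_mul, mul_assoc (Real.pi ^ 2 * z / 9)]
  refine mul_le_mul_of_nonneg_left ?_ (by positivity)
  rw [← mul_assoc (1 + Real.pi * z / 3 + (Real.pi * z / 3) ^ 2)]
  refine mul_le_mul_of_nonneg_right ?_ (Real.exp_pos _).le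
  have hMN : 1 ≤ M * N := by nlinarith
  set u : ℝ := Real.pi * z / 3 with hu
  have hupos : 0 < u := by positivity
  have e2 : Real.pi * M * z / 3 = u * M := by rw [hu]; ring
  rw [e2]
  have hb : |1 / N ^ 3 + u * M / N ^ 2 + (u * M) ^ 2 / (2 * N)| ≤ (1 + u + u ^ 2) * M ^ 2 := by
    rw [abs_of_pos (by positivity)]
    have h1 : 1 / N ^ 3 ≤ 1 := by
      rw [div_le_one (by positivity)]
      exact one_le_pow₀ hN
    have h2 : u * M / N ^ 2 ≤ u * M := div_le_self (by positivity) (one_le_pow₀ hN)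
    have h3 : (u * M) ^ 2 / (2 * N) ≤ (u * M) ^ 2 := div_le_self (by positivity) (by linarith)
    have h4 : 1 ≤ M ^ 2 := one_le_pow₀ hM
    have h5 : M ≤ M ^ 2 := le_self_pow₀ hM (by norm_num)
    have h6 : u * M ≤ u * M ^ 2 := mul_le_mul_of_nonneg_left h5 hupos.le
    nlinarith
  calc |sn p| * |M| * |1 / N ^ 3 + u * M / N ^ 2 + (u * M) ^ 2 / (2 * N)|
      ≤ 1 * M * ((1 + u + u ^ 2) * M ^ 2) := by
        refine mul_le_mul ?_ hb (abs_nonneg _) (by positivity)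
        refine mul_le_mul (abs_sn p) ?_ (abs_nonneg _) zero_le_one
        rw [abs_of_pos (by linarith)]
    _ = (1 + u + u ^ 2) * M ^ 3 := by ring
    _ ≤ (1 + u + u ^ 2) * (M * N) ^ 6 := by
        refine mul_le_mul_of_nonneg_left ?_ (by positivity)
        calc M ^ 3 ≤ (M * N) ^ 3 := by
              apply pow_le_pow_left₀ (by linarith)
              exact le_mul_of_one_le_right (by linarith) hN
          _ ≤ (M * N) ^ 6 := pow_le_pow_right₀ hMN (by norm_num)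

theorem sum_tT (y : ℝ) (hy : 0 < y) : Summable (tT y) := by
  have h1 : Summable (fun p : ℕ × ℕ => ((p.2:ℝ) + 1) ^ 2 *
      Real.exp (-(Real.pi * ((p.1:ℝ) + 1) * ((p.2:ℝ) + 1) * y))) := by
    refine summable_of_bound _ 1 (Real.pi * y) (by positivity) ?_
    intro p
    obtain ⟨hM, hN⟩ := one_le_X p
    set M : ℝ := (p.1:ℝ) + 1 with hMd
    set N : ℝ := (p.2:ℝ) + 1 with hNd
    have e1 : -(Real.pi * M * N * y) = -(Real.pi * y * (M * N)) := by ring
    rw [e1, one_mul, abs_mul, abs_of_pos (Real.exp_pos _)]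
    refine mul_le_mul_of_nonneg_right ?_ (Real.exp_pos _).le
    rw [abs_of_pos (by positivity)]
    have hMN : 1 ≤ M * N := by nlinarith
    calc N ^ 2 ≤ (M * N) ^ 2 := by
          apply pow_le_pow_left₀ (by linarith)
          exact le_mul_of_one_le_left (by linarith) hM
      _ ≤ (M * N) ^ 6 := pow_le_pow_right₀ hMN (by norm_num)
  have h2 : Summable (fun p : ℕ × ℕ =>
      Real.exp (-(Real.pi * ((p.1:ℝ) + 1) * ((p.2:ℝ) + 1) / (3 * y)))) := by
    refine summable_of_bound _ 1 (Real.pi / (3 * y)) (by positivity) ?_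
    intro p
    obtain ⟨hM, hN⟩ := one_le_X p
    set M : ℝ := (p.1:ℝ) + 1 with hMd
    set N : ℝ := (p.2:ℝ) + 1 with hNd
    have e1 : -(Real.pi * M * N / (3 * y)) = -(Real.pi / (3 * y) * (M * N)) := by
      field_simp
    rw [e1, one_mul, abs_of_pos (Real.exp_pos _)]
    have hMN : 1 ≤ M * N := by nlinarith
    exact le_mul_of_one_le_left (Real.exp_pos _).le (one_le_pow₀ hMN)
  have h3 := h1.mul_of_nonneg h2 (fun p => by positivity) (fun p => by positivity)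
  refine Summable.of_norm_bounded h3 ?_
  intro w
  rw [Real.norm_eq_abs]
  unfold tT
  rw [abs_mul, abs_mul, abs_neg, abs_pow, abs_neg, abs_one, one_pow, one_mul,
    abs_of_pos (Real.exp_pos _), abs_mul, abs_mul, sub_eq_add_neg, Real.exp_add, ← mul_assoc]
  refine mul_le_mul_of_nonneg_right ?_ (Real.exp_pos _).le
  refine mul_le_mul_of_nonneg_right ?_ (Real.exp_pos _).le
  have e1 := abs_chi ((w.1.1:ℤ) + 1)
  have e2 := abs_chi ((w.2.1:ℤ) + 1)
  have e3 : |((w.1.2:ℝ) + 1) ^ 2| = ((w.1.2:ℝ) + 1) ^ 2 := abs_of_pos (by positivity)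
  rw [e3]
  have e4 : 0 ≤ ((w.1.2:ℝ) + 1) ^ 2 := by positivity
  calc |chi ((w.1.1:ℤ) + 1)| * ((w.1.2:ℝ) + 1) ^ 2 * |chi ((w.2.1:ℤ) + 1)|
      ≤ 1 * ((w.1.2:ℝ) + 1) ^ 2 * 1 := by
        refine mul_le_mul (mul_le_mul_of_nonneg_right e1 e4) e2 (abs_nonneg _) (by linarith)
    _ = ((w.1.2:ℝ) + 1) ^ 2 := by ring

theorem thm : EC237.PF.G_SUMT := ⟨sum_tM0, sum_tM2, sum_tE, sum_tT⟩

end EC237.PF.PkSUMT
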